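import Pool.Agent.Helper16_AHH.Mon
import Pool.Agent.Helper99_AND2B.FLX

/-!
# AHH: the fields `beg`, `mmon`, `rbeg`, `rmon` of `Ana0`
-/

set_option autoImplicit false

open scoped BigOperators NNReal Matrix

noncomputable section

namespace Pool.Agent.AHH.H16

open Pool.Agent.BED (Tor)
open Pool.Agent.LE.QF (BB KK)
open Pool.Agent.AND2B (net kap Viol Hr Vef res)
open Pool.Agent.ANP (Cfg Geo Fc)
open Pool.Agent.AFJ (ind LaR EE)
open Pool.Agent.ABY
open Pool.Agent.LTG (Fm Bd sT tT qd)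
open Pool.Agent.HSL14 (ward_diag mat_unit)

variable {d M : ℕ} [NeZero M]

/-- the conditions on the fixed data and the budget which are needed for `beg`, `mmon`, `rbeg`, `rmon` -/
structure BudOk (V : Env d M) (b : Bud) : Prop where
  c0 : 0 < V.c₀
  e0 : 0 < V.e₀
  D0 : 0 ≤ V.D₀
  D1 : 0 ≤ V.D₁
  th : 1 / 2 ≤ (V.th : ℝ) ∧ (V.th : ℝ) ≤ 1
  cl : ∀ k, V.cl (k + 1) = V.th * V.cl k ∧ 0 < V.cl k
  inc : ∀ n k, 0 ≤ b.inc n k ∧ 0 ≤ b.inL n k ∧ 0 ≤ b.inY n k ∧ 0 ≤ b.nn n k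
  icR : ∀ n, 0 ≤ b.icR n ∧ 0 ≤ b.lR n ∧ 0 ≤ b.yR n ∧ 0 ≤ b.nR n ∧ 0 ≤ b.tau n
  q : ∀ n k, 0 ≤ (b.q n k).mis ∧ 0 ≤ (b.q n k).lam ∧ 0 ≤ (b.q n k).tht ∧ 0 ≤ (b.q n k).eps ∧
    (b.q n k).eps ≤ (b.q n k).rho
  psi : ∀ n P x, Psi V.Γ n P x ≤ V.Cp
  half : ∀ n k, n ≤ V.Γ.N → (b.q n k).mis + b.inc n k * V.Cp ≤ V.c₀ / 2
  thm : ∀ n k, n ≤ V.Γ.N →
    (1 + (b.q n k).tht) / (1 - (b.q n k).mis / V.c₀) ≤ 1 + b.thm n k

/-! ### potentials -/

theorem om_nonneg {X : Type} [Fintype X] [DecidableEq X] (Γ : Geo X) (n : ℕ) (B x : X) :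
    0 ≤ om Γ n B x := (Real.exp_pos _).le

theorem psi_nonneg {X : Type} [Fintype X] [DecidableEq X] (Γ : Geo X) (n : ℕ) (P : Finset X)
    (x : X) : 0 ≤ Psi Γ n P x := Finset.sum_nonneg fun _ _ => om_nonneg Γ n _ x

theorem psi_empty {X : Type} [Fintype X] [DecidableEq X] (Γ : Geo X) (n : ℕ) (x : X) :
    Psi Γ n ∅ x = 0 := by
  unfold Psi
  rw [Finset.filter_empty, Finset.sum_empty]

theorem psi_mono {X : Type} [Fintype X] [DecidableEq X] (Γ : Geo X) (n : ℕ) {P P' : Finset X}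
    (h : P ⊆ P') (x : X) : Psi Γ n P x ≤ Psi Γ n P' x :=
  Finset.sum_le_sum_of_subset_of_nonneg (Finset.filter_subset_filter _ h)
    fun _ _ _ => om_nonneg Γ n _ x

theorem phi_empty {X : Type} [Fintype X] [DecidableEq X] (Γ : Geo X) (τ : ℝ) (n : ℕ) (x : X) :
    Phi Γ τ n ∅ x = 0 := by
  unfold Phi ind
  rw [if_neg (Finset.notMem_empty x), Finset.sum_empty, mul_zero, zero_add]

theorem phi_mono {X : Type} [Fintype X] [DecidableEq X] (Γ : Geo X) {τ : ℝ} (hτ : 0 ≤ τ) (n : ℕ)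
    {P P' : Finset X} (h : P ⊆ P') (x : X) : Phi Γ τ n P x ≤ Phi Γ τ n P' x := by
  unfold Phi
  have h1 : ind P x ≤ ind P' x := by
    unfold ind
    by_cases hx : x ∈ P
    · rw [if_pos hx, if_pos (h hx)]
    · rw [if_neg hx]
      split_ifs <;> norm_num
  have h2 : ∑ y ∈ P, Real.exp (-((Γ.D x y : ℝ) / Γ.ρ n)) ≤
      ∑ y ∈ P', Real.exp (-((Γ.D x y : ℝ) / Γ.ρ n)) :=
    Finset.sum_le_sum_of_subset_of_nonneg h fun _ _ _ => (Real.exp_pos _).le
  have h3 := mul_le_mul_of_nonneg_left h2 hτ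
  linarith

theorem phi_nonneg {X : Type} [Fintype X] [DecidableEq X] (Γ : Geo X) {τ : ℝ} (hτ : 0 ≤ τ) (n : ℕ)
    (P : Finset X) (x : X) : 0 ≤ Phi Γ τ n P x := by
  have := phi_mono Γ hτ n (Finset.empty_subset P) x
  rwa [phi_empty] at this

/-! ### the network of a configuration -/

theorem mem_al {T : Cfg (Tor d M)} {x : Tor d M} : x ∈ Al T ↔ 0 < T.s x := by
  unfold Al
  rw [Finset.mem_filter]
  exact ⟨fun h => h.2, fun h => ⟨Finset.mem_univ x, h⟩⟩

theorem kap_pos {e₀ : ℝ} {T : Cfg (Tor d M)} (he : 0 < e₀) (hg : ∀ x ∈ Al T, 0 < gg T x)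
    (x : Tor d M) : 0 < kap e₀ T x := by
  unfold kap
  by_cases hx : x ∈ Al T
  · have h1 := hg x hx
    have h2 : (0 : ℝ) < T.s x := by exact_mod_cast mem_al.1 hx
    have h3 : 0 < (T.s x : ℝ) * (T.mb x).im := mul_pos h2 h1
    linarith
  · have h2 : T.s x = 0 := by
      by_contra h
      exact hx (mem_al.2 (pos_iff_ne_zero.2 h))
    rw [h2]
    simpa using he

theorem net_net (E : ℝ) {e₀ : ℝ} {T : Cfg (Tor d M)} (he : 0 < e₀)
    (hg : ∀ x ∈ Al T, 0 < gg T x) : ANR.Net (Hr (Vef T) E) (kap e₀ T) :=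
  ⟨AND2B.H99.hr_sym _ _, kap_pos he hg⟩

theorem net_ward (E : ℝ) {e₀ : ℝ} {T : Cfg (Tor d M)} (he : 0 < e₀)
    (hg : ∀ x ∈ Al T, 0 < gg T x) (x : Tor d M) :
    ∑ y, kap e₀ T y * KK (net E e₀ T) x y = (net E e₀ T x x).im := by
  have h := ward_diag (AND2B.H99.hr_sym (Vef T) E) (mat_unit (net_net E he hg)) x
  exact h

/-- the clock part of the flux is at most `Im G` -/
theorem flux_le (E : ℝ) {e₀ : ℝ} {T : Cfg (Tor d M)} (he : 0 < e₀)
    (hg : ∀ x ∈ Al T, 0 < gg T x) (a : Tor d M) (w : Tor d M → ℝ)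
    (hw : ∀ b, w b ≤ kap e₀ T b) :
    ∑ b, KK (net E e₀ T) a b * w b ≤ (net E e₀ T a a).im := by
  rw [← net_ward E he hg a]
  refine Finset.sum_le_sum fun b _ => ?_
  rw [mul_comm]
  exact mul_le_mul_of_nonneg_right (hw b) (kk_nonneg _ a b)

/-! ### the form bounds -/

theorem fb_mono {V : Env d M} {T : Cfg (Tor d M)} {eb eb' r r' : Tor d M → ℝ} (hD0 : 0 ≤ V.D₀)
    (hD1 : 0 ≤ V.D₁) (he : ∀ x ∈ Al T, eb x ≤ eb' x) (hr : ∀ x, r x ≤ r' x)
    (h : FB V T eb r) : FB V T eb' r' := by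
  obtain ⟨εl, εu, bl, bu, h1, h2, h3⟩ := h
  refine ⟨εl, εu, bl, bu, h1, fun x hx => ?_, fun e => ?_⟩
  · obtain ⟨a1, a2, a3, a4⟩ := h2 x hx
    exact ⟨a1, a2.trans (he x hx), a3, a4.trans (by linarith [hr x])⟩
  · obtain ⟨a1, a2, a3⟩ := h3 e
    have h4 := mul_le_mul_of_nonneg_left (hr (sT e)) hD0
    have h5 := mul_le_mul_of_nonneg_left (hr (sT e)) hD1
    refine ⟨?_, a2, ?_⟩
    · nlinarith
    · nlinarith

theorem ww_pos {e₀ : ℝ} {T : Cfg (Tor d M)} (he : 0 < e₀) (hg : ∀ x ∈ Al T, 0 < gg T x)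
    {x : Tor d M} (hx : x ∈ Al T) : 0 < ww e₀ T x :=
  mul_pos (kap_pos he hg x) (hg x hx)

theorem gau_pos {V : Env d M} {T : Cfg (Tor d M)} {δ : ℝ} (hc : 0 < V.c₀) (h : Gb V T δ) :
    ∀ x ∈ Al T, 0 < gg T x := fun x hx => lt_of_lt_of_le hc (h x hx).1

/-! ### block Y -/

theorem pv_zero {T : Cfg (Tor d M)} {run : Finset (Tor d M)} {c : ℝ}
    (h : ∀ x ∈ run, (T.s x : ℝ) = c) : pv T run c = 0 := by
  funext x
  unfold pv ind
  by_cases hx : x ∈ run
  · rw [h x hx]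
    simp
  · rw [if_neg hx, zero_mul]
    rfl

theorem yy_mono (hC : CmpStmt) (hV : VexStmt) (hF : VfrStmt) {E e₀ : ℝ} {T : Cfg (Tor d M)}
    {run run' : Finset (Tor d M)} {c ρ : ℝ} (hsub : run' ⊆ run) (hc : 0 ≤ c)
    (hg : ∀ a ∈ run, 0 < gg T a) (hP : ∀ x ∈ run, c ≤ T.s x) (hρ : 0 ≤ ρ ∧ ρ < 1)
    (hK : ∀ a ∈ run, ∑ b, KK (net E e₀ T) a b * pv T run c b * gg T b ≤ ρ * gg T a) :
    ∀ a ∈ run, yy E e₀ T run' c a ≤ yy E e₀ T run c a := by
  have h1 : ∀ x, (1 - ind (run \ run') x) * pv T run c x = pv T run' c x := by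
    intro x
    unfold pv ind
    by_cases h2 : x ∈ run'
    · have h3 : x ∉ run \ run' := fun h => (Finset.mem_sdiff.1 h).2 h2
      rw [if_neg h3, if_pos h2, if_pos (hsub h2)]
      ring
    · by_cases h4 : x ∈ run
      · rw [if_pos (Finset.mem_sdiff.2 ⟨h4, h2⟩), if_neg h2]
        ring
      · rw [if_neg h4, if_neg h2]
        ring
  have h1' : ∀ x, (1 - ind (run \ run') x) * pw T run c x = pw T run' c x := by
    intro x
    unfold pw ind
    by_cases h2 : x ∈ run'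
    · have h3 : x ∉ run \ run' := fun h => (Finset.mem_sdiff.1 h).2 h2
      rw [if_neg h3, if_pos h2, if_pos (hsub h2)]
      ring
    · by_cases h4 : x ∈ run
      · rw [if_pos (Finset.mem_sdiff.2 ⟨h4, h2⟩), if_neg h2]
        ring
      · rw [if_neg h4, if_neg h2]
        ring
  have hcmp : Cmp (BB (net E e₀ T)) (KK (net E e₀ T)) (pv T run c) (gg T) run run ρ := by
    refine ⟨fun a b => (ABY.H44.nBK _ a b).le, ⟨fun x => ?_, fun x hx => ?_⟩, le_rfl, hg, hρ, hK⟩
    · unfold pv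
      by_cases hx : x ∈ run
      · exact mul_nonneg (ind_nonneg _ _) (by linarith [hP x hx])
      · unfold ind
        rw [if_neg hx, zero_mul]
    · unfold pv ind
      rw [if_neg hx, zero_mul]
  intro a ha
  have h2 := hF hC hV (Tor d M) (net E e₀ T) (pv T run c) (pw T run c) (gg T) run run
    (run \ run') ρ hcmp Finset.sdiff_subset (fun x => by
      unfold pw
      by_cases hx : x ∈ run
      · exact mul_nonneg (ind_nonneg _ _) (mul_nonneg hc (hg x hx).le)
      · unfold ind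
        rw [if_neg hx, zero_mul]) a ha
  have h3 : (fun x => (1 - ind (run \ run') x) * pv T run c x) = pv T run' c := funext h1
  have h4 : (fun x => (1 - ind (run \ run') x) * pw T run c x) = pw T run' c := funext h1'
  rw [h3, h4] at h2
  exact h2

/-! ### the fields -/

theorem cl_bd {V : Env d M} {b : Bud} (hB : BudOk V b) (k : ℕ) :
    (V.cl k : ℝ) ≤ 2 * V.cl (k + 1) ∧ (V.cl (k + 1) : ℝ) ≤ V.cl k ∧ (0 : ℝ) < V.cl k := by
  have h1 : (V.cl (k + 1) : ℝ) = V.th * V.cl k := by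
    rw [(hB.cl k).1]; push_cast; ring
  have h2 : (0 : ℝ) < V.cl k := by exact_mod_cast (hB.cl k).2
  have h3 := hB.th.1
  have h4 := hB.th.2
  refine ⟨?_, ?_, h2⟩
  · rw [h1]; nlinarith
  · rw [h1]; nlinarith

/-- field `beg` -/
theorem beg_field (hC : CmpStmt) (hX : VexStmt) {V : Env d M} {b : Bud} (hB : BudOk V b) :
    ∀ n k T run, n ≤ V.Γ.N → V.kk n ≤ k → k < V.kk (n + 1) →
      Fc V.Γ V.kk V.cl V.Dn n k ∅ T run → St V b n k T run → Md V b n k T run ∅ T run := by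
  intro n k T run hn h1 h2 hF hS
  have hgp := gau_pos hB.c0 hS.gau
  have hgr : ∀ a ∈ run, 0 < gg T a := fun a ha => hgp a (hS.alv ha)
  have hrs : ∀ x ∈ run, (T.s x : ℝ) = V.cl k := fun x hx => by
    have := hF.runs x hx
    rw [if_neg (Finset.notMem_empty x)] at this
    rw [this]
  obtain ⟨hcl1, hcl2, hcl3⟩ := cl_bd hB k
  obtain ⟨q1, q2, q3, q4, q5⟩ := hB.q n k
  refine ⟨⟨hn, h1, h2⟩, hF, hS, le_rfl, rfl, fun x => Or.inl rfl, fun x _ => rfl, ?_, ?_, ?_, ?_,
    hS.old, hS.ded⟩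
  · intro x _ y _
    rw [sub_self, norm_zero, psi_empty, mul_zero]
  · intro x hx
    rw [psi_empty, mul_zero, add_zero, mul_one]
    exact hS.lar x hx
  · intro a ha
    rw [psi_empty, mul_zero, add_zero]
    have hmc : (b.q n k).mis / V.c₀ ≤ 1 / 2 := by
      rw [div_le_iff₀ hB.c0]
      have h3 := hB.half n k hn
      have h4 := (hB.inc n k).1
      have h5 : 0 ≤ V.Cp := (psi_nonneg V.Γ n ∅ a).trans (hB.psi n ∅ a)
      have h6 : 0 ≤ b.inc n k * V.Cp := mul_nonneg h4 h5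
      linarith
    have hY : Yin (net V.E V.e₀ T) 0 (fun x => ind run x * ((V.cl k : ℝ) * gg T x)) (gg T) run
        (b.q n k).tht := by
      intro a ha
      have h3 := hS.yin a ha
      unfold yy at h3
      rw [pv_zero hrs] at h3
      exact h3
    have hK : ∀ a ∈ run, ∑ c ∈ run, KK (net V.E V.e₀ T) a c * ((V.cl k : ℝ) * gg T c) ≤
        (1 + (b.q n k).mis / V.c₀) * gg T a := by
      intro a ha
      have h3 : ∑ c ∈ run, KK (net V.E V.e₀ T) a c * ((V.cl k : ℝ) * gg T c) ≤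
          ∑ c, KK (net V.E V.e₀ T) a c * kap V.e₀ T c := by
        refine (Finset.sum_le_sum fun c hc => ?_).trans
          (Finset.sum_le_sum_of_subset_of_nonneg (Finset.subset_univ run) fun c _ _ => ?_)
        · refine mul_le_mul_of_nonneg_left ?_ (kk_nonneg _ a c)
          unfold kap gg
          rw [hrs c hc]
          linarith [hB.e0]
        · exact mul_nonneg (kk_nonneg _ a c) (kap_pos hB.e0 hgp c).le
      have h4 := flux_le V.E hB.e0 hgp a (kap V.e₀ T) (fun _ => le_rfl)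
      have h5 : (net V.E V.e₀ T a a).im ≤ gg T a + (b.q n k).mis := by
        have h6 := hS.mis a ha
        have h7 := (Complex.abs_im_le_norm (net V.E V.e₀ T a a - T.mb a)).trans h6
        rw [Complex.sub_im] at h7
        have h8 := (abs_le.1 h7).2
        unfold gg
        linarith
      have h6 : (b.q n k).mis ≤ (b.q n k).mis / V.c₀ * gg T a := by
        rw [div_mul_eq_mul_div, le_div_iff₀ hB.c0]
        exact mul_le_mul_of_nonneg_left (hS.gau a (hS.alv ha)).1 q1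
      linarith
    have h3 := vst_th hC hX (net V.E V.e₀ T) (gg T) run (V.cl k) (V.cl (k + 1))
      ((b.q n k).mis / V.c₀) (b.q n k).tht hcl3 hcl1 hcl2 (div_nonneg q1 hB.c0.le)
      (by linarith) q3 hgr hK hY a ha
    have h4 : (fun x => ind run x * ((V.cl k : ℝ) - V.cl (k + 1))) = pv T run (V.cl (k + 1)) := by
      funext x
      unfold pv ind
      by_cases hx : x ∈ run
      · rw [hrs x hx]
      · rw [if_neg hx]
        ring
    rw [h4] at h3
    refine le_trans (b := (1 + ((1 + (b.q n k).tht) / (1 - (b.q n k).mis / V.c₀) - 1)) * gg T a)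
      h3 ?_
    refine mul_le_mul_of_nonneg_right ?_ (hgr a ha).le
    have := hB.thm n k hn
    linarith
  · refine fb_mono hB.D0 hB.D1 ?_ ?_ hS.frm
    · intro x hx
      rw [psi_empty, mul_zero, add_zero, div_self (ww_pos hB.e0 hgp hx).ne', mul_one]
    · intro x
      rw [psi_empty, mul_zero, add_zero]

/-- the clocks of the alive sites of `T` during the stage -/
theorem md_al {V : Env d M} {b : Bud} (hB : BudOk V b) {n k : ℕ} {T₀ T : Cfg (Tor d M)}
    {run₀ run P : Finset (Tor d M)} (h : Md V b n k T₀ run₀ P T run) : Al T = Al T₀ := by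
  ext x
  rw [mem_al, mem_al]
  rcases h.clk x with h1 | ⟨-, -, h1⟩
  · rw [h1]
  · rw [h1]
    have h2 : 0 < V.th := by
      have := hB.th.1
      have h3 : (0 : ℝ) < V.th := by linarith
      exact_mod_cast h3
    constructor
    · intro h3
      exact pos_of_mul_pos_right h3 (zero_le)
    · intro h3
      exact mul_pos h2 h3

theorem md_gau {V : Env d M} {b : Bud} (hB : BudOk V b) {n k : ℕ} {T₀ T : Cfg (Tor d M)}
    {run₀ run P : Finset (Tor d M)} (h : Md V b n k T₀ run₀ P T run) :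
    Gb V T (b.q n k).del := by
  intro x hx
  rw [md_al hB h] at hx
  have h1 := h.st0.gau x hx
  unfold gg at h1 ⊢
  rw [h.mb]
  exact h1

theorem md_ww {V : Env d M} {b : Bud} (hB : BudOk V b) {n k : ℕ} {T₀ T : Cfg (Tor d M)}
    {run₀ run P : Finset (Tor d M)} (h : Md V b n k T₀ run₀ P T run) {x : Tor d M}
    (hx : x ∈ Al T) : ww V.e₀ T x ≤ ww V.e₀ T₀ x ∧ 0 < ww V.e₀ T x := by
  have hg := md_gau hB h
  have hgx := gau_pos hB.c0 hg x hx
  refine ⟨?_, ww_pos hB.e0 (gau_pos hB.c0 hg) hx⟩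
  have h1 : gg T x = gg T₀ x := by unfold gg; rw [h.mb]
  have h2 : (T.s x : ℝ) ≤ T₀.s x := by
    rcases h.clk x with h2 | ⟨-, -, h2⟩
    · rw [h2]
    · rw [h2]
      push_cast
      have h3 := hB.th.2
      have h4 : (0 : ℝ) ≤ T₀.s x := NNReal.coe_nonneg _
      nlinarith
  unfold ww kap
  have h3 : (T.mb x).im = gg T₀ x := h1
  have h3' : (T₀.mb x).im = gg T₀ x := rfl
  rw [h3, h3', h1]
  rw [h1] at hgx
  refine mul_le_mul_of_nonneg_right ?_ hgx.le
  have h4 := mul_le_mul_of_nonneg_right h2 hgx.le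
  linarith

/-- field `mmon` -/
theorem mmon_field (hC : CmpStmt) (hX : VexStmt) (hVF : VfrStmt) {V : Env d M} {b : Bud}
    (hB : BudOk V b) : ∀ n k T₀ run₀ P P' T run run', P ⊆ P' → run' ⊆ run →
      Fc V.Γ V.kk V.cl V.Dn n k P T run → Fc V.Γ V.kk V.cl V.Dn n k P' T run' →
      Md V b n k T₀ run₀ P T run → Md V b n k T₀ run₀ P' T run' := by
  intro n k T₀ run₀ P P' T run run' hP hr hF hF' hM
  have hn := hM.ctx.1
  have hg := md_gau hB hM
  have hgp := gau_pos hB.c0 hg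
  obtain ⟨hcl1, hcl2, hcl3⟩ := cl_bd hB k
  obtain ⟨-, -, hcl4⟩ := cl_bd hB (k + 1)
  obtain ⟨q1, q2, q3, q4, q5⟩ := hB.q n k
  obtain ⟨i1, i2, i3, i4⟩ := hB.inc n k
  have hrun : ∀ x ∈ run, (T.s x : ℝ) ≤ V.cl k ∧ (V.cl (k + 1) : ℝ) ≤ T.s x ∧ x ∈ Al T := by
    intro x hx
    have h1 := hF.runs x hx
    split_ifs at h1
    · rw [h1]
      refine ⟨hcl2, le_rfl, mem_al.2 ?_⟩
      rw [h1]
      exact (hB.cl (k + 1)).2
    · rw [h1]
      refine ⟨le_rfl, hcl2, mem_al.2 ?_⟩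
      rw [h1]
      exact (hB.cl k).2
  refine ⟨hM.ctx, hM.fc0, hM.st0, hr.trans hM.sub, hM.mb, fun x => ?_, hM.ddV, ?_, ?_, ?_, ?_,
    hM.old, hM.ded⟩
  · rcases hM.clk x with h | ⟨h1, h2, h3⟩
    · exact Or.inl h
    · exact Or.inr ⟨h1, hP h2, h3⟩
  · intro x hx y hy
    exact (hM.ent x hx y hy).trans (mul_le_mul_of_nonneg_left (psi_mono V.Γ n hP x) i1)
  · intro x hx
    have h1 : LaR (net V.E V.e₀ T) run' x ≤ LaR (net V.E V.e₀ T) run x := by
      unfold LaR
      exact Finset.sum_le_sum_of_subset_of_nonneg hr fun y _ _ => sq_nonneg _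
    refine h1.trans ((hM.lar x hx).trans (mul_le_mul_of_nonneg_left ?_ q2))
    have := mul_le_mul_of_nonneg_left (psi_mono V.Γ n hP x) i2
    linarith
  · intro a ha
    have ha' := hr ha
    have hga := hgp a (hrun a ha').2.2
    have h1 : ∀ a ∈ run, ∑ c, KK (net V.E V.e₀ T) a c * pv T run (V.cl (k + 1)) c * gg T c ≤
        3 / 4 * gg T a := by
      intro a ha
      have haA := (hrun a ha).2.2
      have h2 : ∑ c, KK (net V.E V.e₀ T) a c * pv T run (V.cl (k + 1)) c * gg T c ≤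
          ∑ c, KK (net V.E V.e₀ T) a c * (kap V.e₀ T c / 2) := by
        refine Finset.sum_le_sum fun c _ => ?_
        rw [mul_assoc]
        refine mul_le_mul_of_nonneg_left ?_ (kk_nonneg _ a c)
        unfold pv ind
        by_cases hc : c ∈ run
        · rw [if_pos hc, one_mul]
          obtain ⟨r1, r2, r3⟩ := hrun c hc
          have hgc := hgp c r3
          have h3 : (T.s c : ℝ) - V.cl (k + 1) ≤ (T.s c : ℝ) / 2 := by linarith
          have h4 := mul_le_mul_of_nonneg_right h3 hgc.le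
          unfold kap
          have h5 : (T.mb c).im = gg T c := rfl
          rw [h5]
          have h6 := hB.e0
          linarith
        · rw [if_neg hc, zero_mul, zero_mul]
          have := kap_pos hB.e0 hgp c
          linarith
      have h3 : ∑ c, KK (net V.E V.e₀ T) a c * (kap V.e₀ T c / 2) =
          (∑ c, KK (net V.E V.e₀ T) a c * kap V.e₀ T c) / 2 := by
        rw [Finset.sum_div]
        exact Finset.sum_congr rfl fun c _ => by ring
      have h4 := flux_le V.E hB.e0 hgp a (kap V.e₀ T) (fun _ => le_rfl)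
      have h5 : (net V.E V.e₀ T a a).im ≤ gg T a + V.c₀ / 2 := by
        have haA0 : a ∈ Al T₀ := by rwa [md_al hB hM] at haA
        have h6 := hM.st0.mis a (hM.sub ha)
        have h7 := hM.ent a haA a haA
        have h8 : ‖net V.E V.e₀ T a a - T.mb a‖ ≤ V.c₀ / 2 := by
          have h9 : net V.E V.e₀ T a a - T.mb a =
              (net V.E V.e₀ T a a - net V.E V.e₀ T₀ a a) + (net V.E V.e₀ T₀ a a - T₀.mb a) := by
            rw [hM.mb]; ring
          rw [h9]
          refine (norm_add_le _ _).trans ?_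
          have h10 := mul_le_mul_of_nonneg_left (hB.psi n P a) i1
          have h11 := hB.half n k hn
          linarith
        have h12 := (Complex.abs_im_le_norm (net V.E V.e₀ T a a - T.mb a)).trans h8
        rw [Complex.sub_im] at h12
        have h13 := (abs_le.1 h12).2
        unfold gg
        linarith
      have h6 : V.c₀ ≤ gg T a := (hg a haA).1
      rw [h3] at h2
      linarith
    have h2 := yy_mono hC hX hVF (E := V.E) (e₀ := V.e₀) hr hcl4.le
      (fun a ha => hgp a (hrun a ha).2.2) (fun x hx => (hrun x hx).2.1) ⟨by norm_num, by norm_num⟩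
      h1 a ha'
    refine h2.trans ((hM.yin a ha').trans (mul_le_mul_of_nonneg_right ?_ hga.le))
    have := mul_le_mul_of_nonneg_left (psi_mono V.Γ n hP a) i3
    linarith
  · refine fb_mono hB.D0 hB.D1 ?_ ?_ hM.frm
    · intro x hx
      have h1 := mul_le_mul_of_nonneg_left (psi_mono V.Γ n hP x) i4
      obtain ⟨h2, h3⟩ := md_ww hB hM hx
      have h4 : (b.q n k).eps * (ww V.e₀ T x / ww V.e₀ T₀ x) ≤ (b.q n k).eps := by
        have h5 : ww V.e₀ T x / ww V.e₀ T₀ x ≤ 1 := by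
          rw [div_le_one (lt_of_lt_of_le h3 h2)]
          exact h2
        exact mul_le_of_le_one_right q4 h5
      by_cases hx' : x ∈ run'
      · rw [if_pos hx', if_pos (hr hx')]
        linarith
      · rw [if_neg hx']
        split_ifs
        · linarith
        · linarith
    · intro x
      have h1 := mul_le_mul_of_nonneg_left (psi_mono V.Γ n hP x) i4
      linarith

/-- field `rbeg` -/
theorem rbeg_field {V : Env d M} {b : Bud} (hB : BudOk V b) :
    ∀ n T run, n ≤ V.Γ.N → Fc V.Γ V.kk V.cl V.Dn n (V.kk (n + 1)) ∅ T run →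
      St V b n (V.kk (n + 1)) T run → Rl V b n T run ∅ T run := by
  intro n T run hn hF hS
  refine ⟨hn, hF, hS, ⟨le_rfl, hS.alv⟩, rfl, fun x => Or.inl ⟨rfl, rfl⟩, ?_, ?_, ?_, ?_⟩
  · intro x _ y _
    rw [sub_self, norm_zero, phi_empty, mul_zero]
  · intro x hx
    rw [phi_empty, mul_zero, add_zero, mul_one]
    exact hS.lar x hx
  · intro a ha
    rw [phi_empty, mul_zero, add_zero]
    exact hS.yin a ha
  · refine fb_mono hB.D0 hB.D1 ?_ ?_ hS.frm
    · intro x hx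
      rw [phi_empty, mul_zero, add_zero]
    · intro x
      rw [phi_empty, mul_zero, add_zero]

theorem rl_gau {V : Env d M} {b : Bud} {n : ℕ} {T₀ T : Cfg (Tor d M)}
    {run₀ run P : Finset (Tor d M)} (h : Rl V b n T₀ run₀ P T run) :
    Gb V T (b.q n (V.kk (n + 1))).del := by
  intro x hx
  have h2 : x ∈ Al T₀ := by
    rcases h.chg x with ⟨-, h3⟩ | ⟨-, h3, h4⟩
    · rw [mem_al, ← h3]
      exact mem_al.1 hx
    · exact mem_al.2 h3
  have h1 := h.st0.gau x h2
  unfold gg at h1 ⊢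
  rw [h.mb]
  exact h1

/-- field `rmon` -/
theorem rmon_field (hC : CmpStmt) (hX : VexStmt) (hVF : VfrStmt) {V : Env d M} {b : Bud}
    (hB : BudOk V b) : ∀ n T₀ run₀ P P' T run run', P ⊆ P' → run' ⊆ run →
      Fc V.Γ V.kk V.cl V.Dn n (V.kk (n + 1)) ∅ T run →
      Fc V.Γ V.kk V.cl V.Dn n (V.kk (n + 1)) ∅ T run' →
      Rl V b n T₀ run₀ P T run → Rl V b n T₀ run₀ P' T run' := by
  intro n T₀ run₀ P P' T run run' hP hr hF hF' hM
  have hg := rl_gau hM
  have hgp := gau_pos hB.c0 hg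
  obtain ⟨-, -, hcl3⟩ := cl_bd hB (V.kk (n + 1))
  obtain ⟨q1, q2, q3, q4, q5⟩ := hB.q n (V.kk (n + 1))
  obtain ⟨i1, i2, i3, i4, i5⟩ := hB.icR n
  have hrs : ∀ x ∈ run, (T.s x : ℝ) = V.cl (V.kk (n + 1)) := fun x hx => by
    have := hF.runs x hx
    rw [if_neg (Finset.notMem_empty x)] at this
    rw [this]
  refine ⟨hM.ctx, hM.fc0, hM.st0, ⟨hr.trans hM.sub.1, hr.trans hM.sub.2⟩, hM.mb, fun x => ?_,
    ?_, ?_, ?_, ?_⟩
  · rcases hM.chg x with h | ⟨h1, h2, h3⟩
    · exact Or.inl h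
    · exact Or.inr ⟨hP h1, h2, h3⟩
  · intro x hx y hy
    exact (hM.ent x hx y hy).trans (mul_le_mul_of_nonneg_left (phi_mono V.Γ i5 n hP x) i1)
  · intro x hx
    have h1 : LaR (net V.E V.e₀ T) run' x ≤ LaR (net V.E V.e₀ T) run x := by
      unfold LaR
      exact Finset.sum_le_sum_of_subset_of_nonneg hr fun y _ _ => sq_nonneg _
    refine h1.trans ((hM.lar x hx).trans (mul_le_mul_of_nonneg_left ?_ q2))
    have := mul_le_mul_of_nonneg_left (phi_mono V.Γ i5 n hP x) i2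
    linarith
  · intro a ha
    have ha' := hr ha
    have hga := hgp a (hM.sub.2 ha')
    have h1 : ∀ a ∈ run,
        ∑ c, KK (net V.E V.e₀ T) a c * pv T run (V.cl (V.kk (n + 1))) c * gg T c ≤
          0 * gg T a := by
      intro a ha
      rw [pv_zero hrs]
      simp
    have h2 := yy_mono hC hX hVF (E := V.E) (e₀ := V.e₀) hr hcl3.le
      (fun a ha => hgp a (hM.sub.2 ha)) (fun x hx => (hrs x hx).ge) ⟨le_rfl, by norm_num⟩
      h1 a ha'
    refine h2.trans ((hM.yin a ha').trans (mul_le_mul_of_nonneg_right ?_ hga.le))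
    have := mul_le_mul_of_nonneg_left (phi_mono V.Γ i5 n hP a) i3
    linarith
  · refine fb_mono hB.D0 hB.D1 ?_ ?_ hM.frm
    · intro x hx
      have h1 := mul_le_mul_of_nonneg_left (phi_mono V.Γ i5 n hP x) i4
      by_cases hx' : x ∈ run'
      · rw [if_pos hx', if_pos (hr hx')]
        linarith
      · rw [if_neg hx']
        split_ifs
        · linarith
        · linarith
    · intro x
      have h1 := mul_le_mul_of_nonneg_left (phi_mono V.Γ i5 n hP x) i4
      linarith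

end Pool.Agent.AHH.H16
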