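import Pool.Agent.Helper16_AHH.BegF
import Pool.Agent.Helper61_AHH.Num
import Pool.Agent.Helper10_ABY.CMP
import Pool.Agent.Helper82_ABY.VEX
import Pool.Agent.Helper13_ABY.VFR

/-!
# AND2B: the fields `beg`, `mmon`, `rbeg`, `rmon` without hypotheses
-/

set_option autoImplicit false

noncomputable section

namespace Pool.Agent.AHH.H16

theorem budT : BudStmt := by
  intro d a c C _ _ hc _ hC
  exact H61.budOk _ _ c C hc hC

/-- field `beg` -/
theorem begT : BegF := begF budT ABY.H10.cmp ABY.H82.vex

/-- field `mmon` -/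
theorem mmonT : MmonF := mmonF budT ABY.H10.cmp ABY.H82.vex ABY.H13.vfr

/-- field `rbeg` -/
theorem rbegT : RbegF := rbegF budT

/-- field `rmon` -/
theorem rmonT : RmonF := rmonF budT ABY.H10.cmp ABY.H82.vex ABY.H13.vfr

end Pool.Agent.AHH.H16
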