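import Pool.Agent.Helper16_AHH.Fld
import Pool.Agent.AHH.Z

/-!
# AND2B: the fields `beg`, `mmon`, `rbeg`, `rmon` in the final form
-/

set_option autoImplicit false

open scoped BigOperators NNReal Matrix

noncomputable section

namespace Pool.Agent.AHH.H16

open Pool.Agent.ABY
open Pool.Agent.AND2B (Prd Ev)

/-- BOK: the budget satisfies `BudOk` -/
def BudStmt : Prop :=
  ∀ (d : ℕ) (a c C : ℝ), 3 ≤ d → 0 < a → 0 < c → c ≤ 1 / 2 → 1 ≤ C →
    Ev d a es c C fun V => BudOk (toE V c C) (bud V)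

theorem begF (hBud : BudStmt) (hC : CmpStmt) (hX : VexStmt) : BegF := by
  intro d a c C hd ha hc hc' hC'
  refine (hBud d a c C hd ha hc hc' hC').imp fun V hB => ?_
  intro n k T run h1 h2 h3 h4 _ h6
  exact beg_field hC hX hB n k T run h1 h2 h3 h4 h6

theorem mmonF (hBud : BudStmt) (hC : CmpStmt) (hX : VexStmt) (hVF : VfrStmt) : MmonF := by
  intro d a c C hd ha hc hc' hC'
  refine (hBud d a c C hd ha hc hc' hC').imp fun V hB => ?_
  intro n k T₀ run₀ P P' T run run' h1 h2 h3 h4 _ _ _ h5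
  exact mmon_field hC hX hVF hB n k T₀ run₀ P P' T run run' h1 h2 h3 h4 h5

theorem rbegF (hBud : BudStmt) : RbegF := by
  intro d a c C hd ha hc hc' hC'
  refine (hBud d a c C hd ha hc hc' hC').imp fun V hB => ?_
  intro n T run h1 h2 _ h3
  exact rbeg_field hB n T run h1 h2 h3

theorem rmonF (hBud : BudStmt) (hC : CmpStmt) (hX : VexStmt) (hVF : VfrStmt) : RmonF := by
  intro d a c C hd ha hc hc' hC'
  refine (hBud d a c C hd ha hc hc' hC').imp fun V hB => ?_
  intro n T₀ run₀ P P' T run run' h1 h2 h3 h4 _ _ _ h5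
  exact rmon_field hC hX hVF hB n T₀ run₀ P P' T run run' h1 h2 h3 h4 h5

end Pool.Agent.AHH.H16
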