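import Pool.Agent.AHH.Defs
import Pool.Agent.ABY.Stmts
import Pool.Agent.Helper14_HSL.HSC
import Pool.Agent.Helper44_ABY.VST

/-!
# AHH: block Y at the start of a stage (any stage factor), monotonicity in the set of running sites
-/

set_option autoImplicit false

open scoped BigOperators NNReal Matrix

noncomputable section

namespace Pool.Agent.AHH.H16

open Pool.Agent.LE.QF Pool.Agent.AFJ Pool.Agent.ABY
open Pool.Agent.ABY.H44 (vir_zero nBK)

section gen

variable {X : Type} [Fintype X] [DecidableEq X]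

omit [DecidableEq X] in
theorem eqn_th {𝕜 : Type} [RCLike 𝕜] (M : Matrix X X 𝕜) (P w w' : X → ℝ) (r : ℝ) (be : X → 𝕜)
    (hv : ∀ a, be a = ∑ b, M a b * psi P w be b) (hw : ∀ b, w b = r * w' b) (a : X) :
    be a - ∑ b, M a b * (((P b : ℝ) : 𝕜) * be b) =
      (r : 𝕜) * (∑ b, M a b * ((w' b : ℝ) : 𝕜)) := by
  conv_lhs => rw [hv a]
  rw [← Finset.sum_sub_distrib, Finset.mul_sum]
  refine Finset.sum_congr rfl fun b _ => ?_
  unfold psi
  rw [hw b]
  push_cast
  ring

theorem kk_nonneg (G : Matrix X X ℂ) (a b : X) : 0 ≤ KK G a b := by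
  unfold KK; positivity

theorem ind_nonneg (R : Finset X) (x : X) : 0 ≤ ind R x := by
  unfold ind; split_ifs <;> norm_num

theorem ind_le_one (R : Finset X) (x : X) : ind R x ≤ 1 := by
  unfold ind; split_ifs <;> norm_num

/-- VST with the stage factor `c / s ∈ [1/2, 1]` -/
theorem vst_th (hC : CmpStmt) (hV : VexStmt) (G : Matrix X X ℂ) (g : X → ℝ) (R : Finset X)
    (s c e θ : ℝ) (hs : 0 < s) (hc1 : s ≤ 2 * c) (hc2 : c ≤ s) (he : 0 ≤ e) (he1 : e < 1)
    (hθ : 0 ≤ θ) (hg : ∀ a ∈ R, 0 < g a)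
    (hK : ∀ a ∈ R, ∑ b ∈ R, KK G a b * (s * g b) ≤ (1 + e) * g a)
    (hY : Yin G 0 (fun x => ind R x * (s * g x)) g R θ) :
    Yin G (fun x => ind R x * (s - c)) (fun x => ind R x * (c * g x)) g R
        ((1 + θ) / (1 - e) - 1) := by
  have hKK : ∀ a b, 0 ≤ KK G a b := kk_nonneg G
  have hind : ∀ x, 0 ≤ ind R x := ind_nonneg R
  set r : ℝ := c / s with hr
  have hrs : c = r * s := by rw [hr]; field_simp
  have hr1 : 1 / 2 ≤ r := by rw [hr, le_div_iff₀ hs]; linarith
  have hr2 : r ≤ 1 := by rw [hr, div_le_iff₀ hs]; linarith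
  have hr0 : 0 ≤ r := by linarith
  have hsum0 : ∀ a, ∑ b, KK G a b * (ind R b * (s * g b)) = ∑ b ∈ R, KK G a b * (s * g b) := by
    intro a
    have e8 : ∀ b, KK G a b * (ind R b * (s * g b)) =
        if b ∈ R then KK G a b * (s * g b) else 0 := by
      intro b
      unfold ind
      split_ifs
      · ring
      · ring
    rw [Finset.sum_congr rfl (fun b _ => e8 b), Finset.sum_ite_mem, Finset.univ_inter]
  have hsum : ∀ a, ∑ b, KK G a b * (ind R b * (s - c)) * g b =
      (1 - r) * (∑ b, KK G a b * (ind R b * (s * g b))) := by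
    intro a
    rw [Finset.mul_sum]
    refine Finset.sum_congr rfl fun b _ => ?_
    rw [hrs]
    ring
  have hK0 : ∀ a ∈ R, ∑ b, KK G a b * (ind R b * (s * g b)) ≤ (1 + e) * g a := by
    intro a ha
    rw [hsum0]
    exact hK a ha
  have hK00 : ∀ a, 0 ≤ ∑ b, KK G a b * (ind R b * (s * g b)) := by
    intro a
    rw [hsum0]
    exact Finset.sum_nonneg fun b hb => mul_nonneg (hKK a b) (mul_nonneg hs.le (hg b hb).le)
  have hKg : ∀ a ∈ R, ∑ b, KK G a b * (ind R b * (s - c)) * g b ≤ (1 + e) / 2 * g a := by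
    intro a ha
    rw [hsum]
    have h1 := hK0 a ha
    have h2 := hK00 a
    nlinarith
  have hP : (∀ x, 0 ≤ ind R x * (s - c)) ∧ ∀ x, x ∉ R → ind R x * (s - c) = 0 := by
    refine ⟨fun x => mul_nonneg (hind x) (by linarith), fun x hx => ?_⟩
    unfold ind
    rw [if_neg hx, zero_mul]
  have c1 : Cmp (BB G) (KK G) (fun x => ind R x * (s - c)) g R R ((1 + e) / 2) :=
    ⟨fun a b => (nBK G a b).le, hP, le_rfl, hg, ⟨by linarith, by linarith⟩, hKg⟩
  have c2 : Cmp (KK G) (KK G) (fun x => ind R x * (s - c)) g R R ((1 + e) / 2) :=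
    ⟨fun a b => by rw [Real.norm_of_nonneg (hKK a b)], hP, le_rfl, hg,
      ⟨by linarith, by linarith⟩, hKg⟩
  obtain ⟨_, v1', _⟩ := hV hC ℂ X (BB G) (KK G) _ g R R _ c1
  obtain ⟨_, v2', _⟩ := hV hC ℝ X (KK G) (KK G) _ g R R _ c2
  have v1 := v1' (fun x => ind R x * (c * g x))
  have v2 := v2' (fun x => ind R x * (c * g x))
  clear v1' v2'
  have key := (hC ℂ X (BB G) (KK G) _ g R R _ c1).2
    (vir (BB G) (fun x => ind R x * (s - c)) (fun x => ind R x * (c * g x)))
    (fun a => (1 + θ) / (1 - e) * g a -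
      vir (KK G) (fun x => ind R x * (s - c)) (fun x => ind R x * (c * g x)) a)
  generalize hbe : vir (BB G) (fun x => ind R x * (s - c))
    (fun x => ind R x * (c * g x)) = be at *
  generalize hq : vir (KK G) (fun x => ind R x * (s - c))
    (fun x => ind R x * (c * g x)) = q at *
  have hw : ∀ b, ind R b * (c * g b) = r * (ind R b * (s * g b)) := fun b => by
    rw [hrs]; ring
  have w1 := eqn_th (BB G) (fun x => ind R x * (s - c)) (fun x => ind R x * (c * g x))
    (fun x => ind R x * (s * g x)) r be v1 hw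
  have w2 := eqn_th (KK G) (fun x => ind R x * (s - c)) (fun x => ind R x * (c * g x))
    (fun x => ind R x * (s * g x)) r q v2 hw
  simp only [RCLike.ofReal_real_eq_id, id_eq] at w2
  have key2 := key (by
    intro a ha
    have b0 := hY a ha
    rw [vir_zero, vir_zero] at b0
    simp only [RCLike.ofReal_real_eq_id, id_eq] at b0
    have e2 := w2 a
    refine (congrArg norm (w1 a)).trans_le ?_
    rw [norm_mul]
    have e0 : ‖((r : ℝ) : ℂ)‖ = r := by
      rw [Complex.norm_real, Real.norm_of_nonneg hr0]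
    have e0' : ‖(RCLike.ofReal r : ℂ)‖ = r := by
      rw [RCLike.norm_ofReal, abs_of_nonneg hr0]
    rw [e0']
    have e5 : ∑ b, KK G a b * ((ind R b * (s - c)) * ((1 + θ) / (1 - e) * g b - q b)) =
        (1 + θ) / (1 - e) * ((1 - r) * (∑ b, KK G a b * (ind R b * (s * g b)))) -
          ∑ b, KK G a b * ((ind R b * (s - c)) * q b) := by
      rw [← hsum, Finset.mul_sum, ← Finset.sum_sub_distrib]
      refine Finset.sum_congr rfl fun b _ => ?_
      ring
    rw [e5]
    have e9 := hK0 a ha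
    have e10 : 0 < 1 - e := by linarith
    have hga := hg a ha
    have e11 : (1 + θ) / (1 - e) * (g a * (r * (1 - e))) ≤
        (1 + θ) / (1 - e) * (g a - (1 - r) * (∑ b, KK G a b * (ind R b * (s * g b)))) := by
      apply mul_le_mul_of_nonneg_left _ (by positivity)
      have h7 : (1 - r) * (∑ b, KK G a b * (ind R b * (s * g b))) ≤
          (1 - r) * ((1 + e) * g a) := mul_le_mul_of_nonneg_left e9 (by linarith)
      have h8 : 0 ≤ g a * (e * (2 * r - 1)) :=
        mul_nonneg hga.le (mul_nonneg he (by linarith))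
      nlinarith
    have e12 : (1 + θ) / (1 - e) * (g a * (r * (1 - e))) = r * ((1 + θ) * g a) := by
      field_simp
    rw [e12] at e11
    rw [mul_sub] at e11
    have e13 : r * (‖∑ b, BB G a b * (((ind R b * (s * g b) : ℝ)) : ℂ)‖ +
        ∑ b, KK G a b * (ind R b * (s * g b))) ≤ r * ((1 + θ) * g a) :=
      mul_le_mul_of_nonneg_left b0 hr0
    have e14 : r * ‖∑ b, BB G a b * (((ind R b * (s * g b) : ℝ)) : ℂ)‖ +
        r * ∑ b, KK G a b * (ind R b * (s * g b)) ≤ r * ((1 + θ) * g a) := by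
      rw [← mul_add]; exact e13
    refine (le_of_eq ?_).trans (show r * ‖∑ b, BB G a b * (((ind R b * (s * g b) : ℝ)) : ℂ)‖ ≤ _
      from ?_)
    · rfl
    · linarith)
  intro a ha
  have key3 := key2 a ha
  have e1 : 1 + ((1 + θ) / (1 - e) - 1) = (1 + θ) / (1 - e) := by ring
  have key4 : ‖be a‖ ≤ (1 + θ) / (1 - e) * g a - q a := key3
  rw [e1, hbe, hq]
  linarith

end gen

end Pool.Agent.AHH.H16
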