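import Pool.Agent.Helper16_AHH.Fld
import Pool.Agent.Helper16_AND.Viol

/-!
# AHH: the fields of `Ana0` as named statements for `St`, `Md`, `Rl`, and the constructor
-/

set_option autoImplicit false

open MeasureTheory ProbabilityTheory

open scoped BigOperators NNReal ENNReal Matrix

noncomputable section

namespace Pool.Agent.AHH.H16

open Pool.Agent.BED (Tor)
open Pool.Agent.AND2B (Viol)
open Pool.Agent.ANP (Cfg Geo Fc Att Win gm)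
open Pool.Agent.ANP.H16 (Ana0)
open Pool.Agent.ABY

variable {d M : ℕ} [NeZero M]

/-- the first configuration -/
def T0 (V : Env d M) : Cfg (Tor d M) := ⟨fun _ => 0, fun _ => V.cl 0, fun _ => V.m₀⟩

/-- field `ini` -/
def IniF (V : Env d M) (b : Bud) : Prop := St V b 0 0 (T0 V) Finset.univ

/-- field `flo` -/
def FloF (V : Env d M) (b : Bud) (p : ℕ → ℝ) : Prop :=
  ∀ n k T₀ run₀ P T run B, n ≤ V.Γ.N → V.kk n ≤ k → k < V.kk (n + 1) → V.Γ.bl n B = B →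
    Disjoint P (V.Γ.blk n B) → ¬ Viol V.E V.L T₀ → ¬ Viol V.E V.L T → St V b n k T₀ run₀ →
    Fc V.Γ V.kk V.cl V.Dn n k ∅ T₀ run₀ → Fc V.Γ V.kk V.cl V.Dn n k P T run →
    Md V b n k T₀ run₀ P T run →
    gm (fun _ => 0) (T.hv V.th (run ∩ V.Γ.blk n B))
      {ζ | ¬ (Viol V.E V.L (T.hf V.th (run ∩ V.Γ.blk n B) ζ) ∨
        Md V b n k T₀ run₀ (P ∪ V.Γ.blk n B) (T.hf V.th (run ∩ V.Γ.blk n B) ζ) run)} ≤
      ENNReal.ofReal (p n)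

/-- field `fin` -/
def FinF (V : Env d M) (b : Bud) : Prop :=
  ∀ n k T₀ run₀ T run, n ≤ V.Γ.N → V.kk n ≤ k → k < V.kk (n + 1) →
    ¬ Viol V.E V.L T₀ → ¬ Viol V.E V.L T → St V b n k T₀ run₀ →
    Fc V.Γ V.kk V.cl V.Dn n k ∅ T₀ run₀ → Fc V.Γ V.kk V.cl V.Dn n k Finset.univ T run →
    Md V b n k T₀ run₀ Finset.univ T run → ∃ m, St V b n (k + 1) (T.rg m) run

/-- field `kil` -/
def KilF (V : Env d M) (b : Bud) (p : ℕ → ℝ) : Prop :=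
  ∀ n T₀ run₀ P T run (Q : Finset (Tor d M)) (v : Tor d M → ℝ), n ≤ V.Γ.N → 1 ≤ n →
    ¬ Viol V.E V.L T₀ → ¬ Viol V.E V.L T →
    St V b n (V.kk (n + 1)) T₀ run₀ → Fc V.Γ V.kk V.cl V.Dn n (V.kk (n + 1)) ∅ T₀ run₀ →
    Fc V.Γ V.kk V.cl V.Dn n (V.kk (n + 1)) ∅ T run → Rl V b n T₀ run₀ P T run →
    Q.Nonempty → (∀ x ∈ Q, x ∉ run ∧ 0 < T.s x) →
    (∀ x ∈ Q, ∀ y ∈ Q, V.Γ.D x y ≤ 2 * V.Γ.L n) →
    Q.card ≤ 3 ^ d * V.Γ.J * (6 * V.Γ.L (n - 1) + 1) ^ d →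
    (∀ x ∈ Q, ∀ y, V.Γ.D x y ≤ V.Γ.ρ n → y ∈ Q ∨ y ∈ run ∨ T.s y = 0) →
    (∀ x ∈ Q, ∀ y ∈ P, 3 * V.Γ.ρ n < V.Γ.D x y) →
    Att (run ∩ V.Γ.nbh Q (V.Γ.ρ n)) Q v (fun T' =>
      (∀ x ∈ Q, T'.V x = v x ∧ T'.s x = 0) ∧
      ({x ∈ run | T'.s x = 0} : Finset (Tor d M)).card ≤ V.Kn n ∧
      (Viol V.E V.L T' ∨ Rl V b n T₀ run₀ (P ∪ V.Γ.nbh Q (V.Γ.ρ n)) T'
        {x ∈ run | T'.s x ≠ 0})) T (ENNReal.ofReal (p n))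

/-- field `rfin` -/
def RfiF (V : Env d M) (b : Bud) : Prop :=
  ∀ n T₀ run₀ P T run run', n ≤ V.Γ.N → ¬ Viol V.E V.L T₀ → ¬ Viol V.E V.L T →
    St V b n (V.kk (n + 1)) T₀ run₀ →
    Fc V.Γ V.kk V.cl V.Dn n (V.kk (n + 1)) ∅ T₀ run₀ →
    Fc V.Γ V.kk V.cl V.Dn n (V.kk (n + 1)) ∅ T run → Rl V b n T₀ run₀ P T run →
    run' ⊆ run → Fc V.Γ V.kk V.cl V.Dn (n + 1) (V.kk (n + 1)) ∅ T run' →
    ∃ m, St V b (n + 1) (V.kk (n + 1)) (T.rg m) run'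

/-- field `out` -/
def OutF (V : Env d M) (b : Bud) (F : Set (Tor d M → ℝ)) : Prop :=
  ∀ T run (a : Tor d M → ℝ) (r : Tor d M → ℝ≥0), ¬ Viol V.E V.L T →
    St V b (V.Γ.N + 1) (V.kk (V.Γ.N + 1)) T run →
    Fc V.Γ V.kk V.cl V.Dn (V.Γ.N + 1) (V.kk (V.Γ.N + 1)) ∅ T run → 0 ∈ run →
    (∀ x, x ∉ run → T.s x ≠ 0 → 3 * V.Γ.ρ (V.Γ.N + 1) < V.Γ.D 0 x) →
    (∀ x, x ∈ run ∨ T.s x = 0 → a x = T.V x ∧ r x = T.s x) → Win F a r (1 / 4)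

/-- THE CONSTRUCTOR OF `Ana0` -/
def mk0 (hC : CmpStmt) (hX : VexStmt) (hVF : VfrStmt) {V : Env d M} {b : Bud}
    {F : Set (Tor d M → ℝ)} {p : ℕ → ℝ} (hB : BudOk V b) (hini : IniF V b) (hflo : FloF V b p)
    (hfin : FinF V b) (hkil : KilF V b p) (hrfi : RfiF V b) (hout : OutF V b F) :
    Ana0 V.Γ d 0 F V.th V.kk V.cl V.Kn V.Dn p (Viol (d := d) (M := M) V.E V.L) where
  HS := St V b
  HM := Md V b
  HR := Rl V b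
  m0 := fun _ => V.m₀
  ini := hini
  beg n k T run h1 h2 h3 h4 _ h6 := beg_field hC hX hB n k T run h1 h2 h3 h4 h6
  mmon n k T₀ run₀ P P' T run run' h1 h2 h3 h4 _ _ _ h5 :=
    mmon_field hC hX hVF hB n k T₀ run₀ P P' T run run' h1 h2 h3 h4 h5
  flo := hflo
  fin := hfin
  rbeg n T run h1 h2 _ h3 := rbeg_field hB n T run h1 h2 h3
  rmon n T₀ run₀ P P' T run run' h1 h2 h3 h4 _ _ _ h5 :=
    rmon_field hC hX hVF hB n T₀ run₀ P P' T run run' h1 h2 h3 h4 h5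
  kil := hkil
  rfin := hrfi
  out := hout

end Pool.Agent.AHH.H16
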